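import Pool.Agent.H357R3.HoroInv

/-!
# Finite orbits in countable horofunction boundaries
-/

set_option autoImplicit false

open Filter Topology

namespace Pool.Agent.H357R3.FinOrb

open Pool.Agent.H357R3.HoroInv

variable {G : Type} [Group G]

/-- the functions `b_x` -/
noncomputable def bx (S : Finset G) (x : G) : G → ℝ := fun y =>
  (len S (x⁻¹ * y) : ℝ) - (len S x⁻¹ : ℝ)

/-- the action on functions -/
def act (g : G) (f : G → ℝ) : G → ℝ := fun y => f (g⁻¹ * y) - f g⁻¹

theorem act_cont (g : G) : Continuous (act g) := by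
  unfold act
  fun_prop

theorem act_one {f : G → ℝ} (hf : f 1 = 0) : act 1 f = f := by
  funext y
  simp [act, hf]

theorem act_at_one (g : G) (f : G → ℝ) : act g f 1 = 0 := by
  simp [act]

theorem act_mul (g h : G) (f : G → ℝ) : act g (act h f) = act (g * h) f := by
  funext y
  simp only [act, mul_inv_rev, mul_assoc]
  ring

theorem act_bx (S : Finset G) (g x : G) : act g (bx S x) = bx S (g * x) := by
  funext y
  simp only [act, bx, mul_inv_rev, mul_assoc]
  ring

/-- a minimal closed invariant set of a countable compact space is finite -/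
theorem finite_orbit (C : Set (G → ℝ)) (hC : IsCompact C) (hne : C.Nonempty)
    (hcount : C.Countable) (hinv : ∀ g, ∀ f ∈ C, act g f ∈ C) (h1 : ∀ f ∈ C, f 1 = 0) :
    ∃ f ∈ C, (Set.range (fun g : G => act g f)).Finite := by
  classical
  -- a minimal nonempty closed invariant subset
  let P : Set (Set (G → ℝ)) := {M | M ⊆ C ∧ M.Nonempty ∧ IsCompact M ∧ ∀ g, ∀ f ∈ M, act g f ∈ M}
  have hzorn : ∃ M, Minimal (· ∈ P) M := by
    have := zorn_superset_nonempty P (by
      intro c hcP hchain hcne
      refine ⟨⋂₀ c, ⟨?_, ?_, ?_, ?_⟩, fun s hs => Set.sInter_subset_of_mem hs⟩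
      · obtain ⟨s, hs⟩ := hcne
        exact (Set.sInter_subset_of_mem hs).trans (hcP hs).1
      · have : Nonempty c := hcne.to_subtype
        have hdir : DirectedOn (· ⊇ ·) c := by
          intro a ha b hb
          rcases hchain.total ha hb with h | h
          · exact ⟨a, ha, subset_rfl, h⟩
          · exact ⟨b, hb, h, subset_rfl⟩
        exact IsCompact.nonempty_sInter_of_directed_nonempty_isCompact_isClosed hdir
          (fun s hs => (hcP hs).2.1) (fun s hs => (hcP hs).2.2.1)
          (fun s hs => (hcP hs).2.2.1.isClosed)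
      · obtain ⟨s, hs⟩ := hcne
        refine (hcP hs).2.2.1.of_isClosed_subset ?_ (Set.sInter_subset_of_mem hs)
        exact isClosed_sInter fun t ht => (hcP ht).2.2.1.isClosed
      · intro g f hf s hs
        exact (hcP hs).2.2.2 g f (hf s hs)) C ⟨subset_rfl, hne, hC, hinv⟩
    obtain ⟨M, _, hM⟩ := this
    exact ⟨M, hM⟩
  obtain ⟨M, hM⟩ := hzorn
  obtain ⟨hMC, hMne, hMc, hMinv⟩ := hM.prop
  -- an isolated point
  have : CompactSpace M := isCompact_iff_compactSpace.1 hMc
  have : Countable M := (hcount.mono hMC).to_subtype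
  have : Nonempty M := hMne.to_subtype
  obtain ⟨p, hp⟩ := nonempty_interior_of_iUnion_of_closed (X := M) (f := fun p : M => {p})
    (fun p => isClosed_singleton) (by ext q; simp)
  have hpo : IsOpen ({p} : Set M) := by
    obtain ⟨q, hq⟩ := hp
    have hqp : q = p := by simpa using interior_subset hq
    have : interior ({p} : Set M) = {p} := by
      apply Set.Subset.antisymm interior_subset
      intro r hr
      rw [Set.mem_singleton_iff] at hr
      rw [hr]
      rw [hqp] at hq
      exact hq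
    rw [← this]
    exact isOpen_interior
  obtain ⟨U, hU, hUp⟩ := isOpen_induced_iff.1 hpo
  -- the complement of the orbit
  let O : Set (G → ℝ) := ⋃ g : G, (act g) ⁻¹' U
  have hO : IsOpen O := isOpen_iUnion fun g => hU.preimage (act_cont g)
  have hOp : ∀ f ∈ M, f ∈ O → ∃ g, act g f = p.1 := by
    intro f hf hfO
    obtain ⟨g, hg⟩ := Set.mem_iUnion.1 hfO
    refine ⟨g, ?_⟩
    have : (⟨act g f, hMinv g f hf⟩ : M) ∈ (Subtype.val ⁻¹' U : Set M) := hg
    rw [hUp] at this
    exact congrArg Subtype.val this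
  have hMO : M ⊆ O := by
    by_contra hcon
    have hdiff : M \ O ∈ P := by
      refine ⟨Set.sdiff_subset.trans hMC, ?_, ?_, ?_⟩
      · obtain ⟨f, hf, hfO⟩ := Set.not_subset.1 hcon
        exact ⟨f, hf, hfO⟩
      · exact hMc.diff hO
      · rintro g f ⟨hf, hfO⟩
        refine ⟨hMinv g f hf, fun hg => hfO ?_⟩
        obtain ⟨k, hk⟩ := Set.mem_iUnion.1 hg
        refine Set.mem_iUnion.2 ⟨k * g, ?_⟩
        show act (k * g) f ∈ U
        rw [← act_mul]
        exact hk
    have hle := hM.le_of_le hdiff Set.sdiff_subset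
    have hpU : p.1 ∈ U := by
      have : p ∈ (Subtype.val ⁻¹' U : Set M) := by rw [hUp]; rfl
      exact this
    have hpO : p.1 ∈ O := by
      refine Set.mem_iUnion.2 ⟨1, ?_⟩
      show act 1 p.1 ∈ U
      rw [act_one (h1 _ (hMC p.2))]
      exact hpU
    exact (hle p.2).2 hpO
  -- finitely many translates cover
  obtain ⟨t, ht⟩ := hMc.elim_finite_subcover (fun g : G => (act g) ⁻¹' U)
    (fun g => hU.preimage (act_cont g)) hMO
  refine ⟨p.1, hMC p.2, ?_⟩
  have hfin : M.Finite := by
    apply Set.Finite.subset (t.finite_toSet.image (fun g => act g⁻¹ p.1))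
    intro f hf
    obtain ⟨g, hgt, hg⟩ := Set.mem_iUnion₂.1 (ht hf)
    have h2 : (⟨act g f, hMinv g f hf⟩ : M) ∈ (Subtype.val ⁻¹' U : Set M) := hg
    rw [hUp] at h2
    have h3 : act g f = p.1 := congrArg Subtype.val h2
    refine ⟨g, hgt, ?_⟩
    show act g⁻¹ p.1 = f
    rw [← h3, act_mul, inv_mul_cancel, act_one (h1 _ (hMC hf))]
  apply hfin.subset
  rintro _ ⟨g, rfl⟩
  exact hMinv g _ p.2

variable {S : Finset G}

/-- Infinite groups with countable closure of the functions `b_x` have a boundary function with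
finite orbit. -/
theorem main [Infinite G] (hs : ∀ s ∈ S, s⁻¹ ∈ S) (hS : Subgroup.closure (S : Set G) = ⊤)
    (hcount : (closure (Set.range (bx S))).Countable) :
    ∃ f : G → ℝ,
      (∃ x : ℕ → G, Tendsto (fun n : ℕ => (len S (x n)⁻¹ : ℝ)) atTop atTop ∧
        ∀ y : G, Tendsto (fun n : ℕ => (len S ((x n)⁻¹ * y) : ℝ) - (len S (x n)⁻¹ : ℝ))
          atTop (nhds (f y))) ∧
      (Set.range (fun g : G => fun y : G => f (g⁻¹ * y) - f g⁻¹)).Finite := by
  classical
  have hL := lenFun hs hS
  have hGc : Countable G := by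
    have h1 : (Set.univ : Set G) = ⋃ n, {x | len S x ≤ n} := by
      ext x
      simp only [Set.mem_univ, Set.mem_iUnion, true_iff]
      exact ⟨len S x, by simp⟩
    rw [← Set.countable_univ_iff, h1]
    exact Set.countable_iUnion fun n => (hL.fin n).countable
  let A : ℕ → Set (G → ℝ) := fun R => {f | ∃ x : G, R ≤ len S x ∧ bx S x = f}
  let C : Set (G → ℝ) := ⋂ R, closure (A R)
  have hbox : IsCompact (Set.pi Set.univ fun z : G => Set.Icc (-(len S z : ℝ)) (len S z)) :=
    isCompact_univ_pi fun z => isCompact_Icc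
  have hA : ∀ R, A R ⊆ Set.pi Set.univ fun z : G => Set.Icc (-(len S z : ℝ)) (len S z) := by
    rintro R _ ⟨x, _, rfl⟩ z _
    have e1 := len_mul_le hs hS x⁻¹ z
    have e2 := len_mul_le hs hS (x⁻¹ * z) z⁻¹
    have e3 := len_inv_le hs hS z
    rw [mul_assoc, mul_inv_cancel, mul_one] at e2
    have e1' : (len S (x⁻¹ * z) : ℝ) ≤ len S x⁻¹ + len S z := by exact_mod_cast e1
    have e2' : (len S x⁻¹ : ℝ) ≤ len S (x⁻¹ * z) + len S z := by
      have : len S x⁻¹ ≤ len S (x⁻¹ * z) + len S z := by omega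
      exact_mod_cast this
    simp only [bx, Set.mem_Icc]
    constructor <;> linarith
  have hcl : ∀ R, IsCompact (closure (A R)) := fun R =>
    hbox.of_isClosed_subset isClosed_closure (closure_minimal (hA R) hbox.isClosed)
  have hanti : ∀ R R', R ≤ R' → closure (A R') ⊆ closure (A R) := by
    intro R R' h
    apply closure_mono
    rintro _ ⟨x, hx, rfl⟩
    exact ⟨x, h.trans hx, rfl⟩
  have hCne : C.Nonempty := by
    apply IsCompact.nonempty_iInter_of_directed_nonempty_isCompact_isClosed
    · intro i j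
      exact ⟨max i j, hanti _ _ (le_max_left _ _), hanti _ _ (le_max_right _ _)⟩
    · intro R
      by_contra hcon
      rw [Set.not_nonempty_iff_eq_empty, closure_empty_iff] at hcon
      have : (Set.univ : Set G).Finite := by
        apply (hL.fin R).subset
        intro x _
        by_contra hx
        have hx' : R ≤ len S x := by
          simp only [Set.mem_ofPred_eq] at hx
          omega
        have : bx S x ∈ A R := ⟨x, hx', rfl⟩
        rw [hcon] at this
        exact this
      exact Set.infinite_univ this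
    · exact hcl
    · exact fun R => isClosed_closure
  have hCc : IsCompact C := (hcl 0).of_isClosed_subset (isClosed_iInter fun R => isClosed_closure)
    (Set.iInter_subset _ 0)
  have hCcount : C.Countable := by
    apply hcount.mono
    refine (Set.iInter_subset _ 0).trans (closure_mono ?_)
    rintro _ ⟨x, _, rfl⟩
    exact ⟨x, rfl⟩
  have hCinv : ∀ g, ∀ f ∈ C, act g f ∈ C := by
    intro g f hf
    refine Set.mem_iInter.2 fun R => ?_
    have h1 : f ∈ closure (A (R + len S g⁻¹)) := Set.mem_iInter.1 hf _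
    have h2 : act g f ∈ act g '' closure (A (R + len S g⁻¹)) := ⟨f, h1, rfl⟩
    have h3 := image_closure_subset_closure_image (act_cont g) h2
    refine closure_mono ?_ h3
    rintro _ ⟨_, ⟨x, hx, rfl⟩, rfl⟩
    refine ⟨g * x, ?_, (act_bx S g x).symm⟩
    have := len_mul_le hs hS g⁻¹ (g * x)
    rw [inv_mul_cancel_left] at this
    omega
  have hC1 : ∀ f ∈ C, f 1 = 0 := by
    intro f hf
    have h1 : f ∈ closure (A 0) := Set.mem_iInter.1 hf 0
    have h2 : closure (A 0) ⊆ {f | f 1 = 0} := by
      apply closure_minimal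
      · rintro _ ⟨x, _, rfl⟩
        simp [bx]
      · exact isClosed_eq (continuous_apply 1) continuous_const
    exact h2 h1
  obtain ⟨f, hfC, hfin⟩ := finite_orbit C hCc hCne hCcount hCinv hC1
  refine ⟨f, ?_, hfin⟩
  -- a sequence
  have hseq : ∀ n : ℕ, ∃ x : G, n ≤ len S x ∧ ∀ y : G, len S y ≤ n → bx S x y = f y := by
    intro n
    have h1 : f ∈ closure (A n) := Set.mem_iInter.1 hfC n
    have hint : ∀ y, ∃ m : ℤ, f y = m := by
      intro y
      have h2 : closure (A n) ⊆ {f | f y ∈ Set.range ((↑) : ℤ → ℝ)} := by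
        apply closure_minimal
        · rintro _ ⟨x, _, rfl⟩
          exact ⟨(len S (x⁻¹ * y) : ℤ) - (len S x⁻¹ : ℤ), by simp [bx]⟩
        · exact IsClosed.preimage (continuous_apply y) Int.isClosedEmbedding_coe_real.isClosed_range
      obtain ⟨m, hm⟩ := h2 h1
      exact ⟨m, hm.symm⟩
    have hball : {y : G | len S y ≤ n}.Finite := hL.fin n
    have hopen : IsOpen (⋂ y ∈ {y : G | len S y ≤ n}, {h : G → ℝ | |h y - f y| < 1 / 2}) := by
      apply hball.isOpen_biInter
      intro y _
      exact isOpen_lt (by fun_prop) continuous_const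
    obtain ⟨h, hh1, x, hx, rfl⟩ := mem_closure_iff.1 h1 _ hopen (by
      refine Set.mem_iInter₂.2 fun y _ => ?_
      simp)
    refine ⟨x, hx, fun y hy => ?_⟩
    have h3 := Set.mem_iInter₂.1 hh1 y hy
    obtain ⟨m, hm⟩ := hint y
    simp only [Set.mem_ofPred_eq] at h3
    rw [hm] at h3 ⊢
    simp only [bx] at h3 ⊢
    have h4 : |(((len S (x⁻¹ * y) : ℤ) - (len S x⁻¹ : ℤ) - m : ℤ) : ℝ)| < 1 / 2 := by
      push_cast
      exact h3
    have h5 : |((len S (x⁻¹ * y) : ℤ) - (len S x⁻¹ : ℤ) - m : ℤ)| < 1 := by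
      have : ((|((len S (x⁻¹ * y) : ℤ) - (len S x⁻¹ : ℤ) - m : ℤ)| : ℤ) : ℝ) < 1 := by
        rw [Int.cast_abs]
        linarith
      exact_mod_cast this
    have h6 : ((len S (x⁻¹ * y) : ℤ) - (len S x⁻¹ : ℤ) - m : ℤ) = 0 := Int.abs_lt_one_iff.1 h5
    have h7 : ((len S (x⁻¹ * y) : ℤ) - (len S x⁻¹ : ℤ) : ℤ) = m := by omega
    have h8 : (((len S (x⁻¹ * y) : ℤ) - (len S x⁻¹ : ℤ) : ℤ) : ℝ) = (m : ℝ) := by rw [h7]
    push_cast at h8
    exact h8
  choose x hx1 hx2 using hseq
  refine ⟨x, ?_, ?_⟩
  · apply tendsto_atTop_mono (f := fun n : ℕ => (n : ℝ)) _ tendsto_natCast_atTop_atTop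
    intro n
    have h1 := len_inv_le hs hS (x n)⁻¹
    rw [inv_inv] at h1
    have h2 := hx1 n
    exact_mod_cast h2.trans h1
  · intro y
    apply tendsto_const_nhds.congr'
    filter_upwards [eventually_ge_atTop (len S y)] with n hn
    exact (hx2 n y hn).symm

end Pool.Agent.H357R3.FinOrb
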